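import Pool.Agent.Run7.h729.Lay.Univ
import Pool.Agent.H31C.Main
import Pool.Agent.H980R4.Rate4

/-! The layered model in the coordinates centred at the slit; all widths; the limit. -/

namespace Pool.Agent.Run7.h729.Lay

open Pool.Agent.H988R2.Perc Pool.Agent.H980R3.Slit Finset MeasureTheory ProbabilityTheory
open Filter Topology Pool.Agent.H863R4

/-- universality, in the coordinates of the slit strip project -/
theorem slit_univ' {P : ℤ → unitInterval} {ε : ℝ} (h0 : 0 < ε) (hP : Ell P ε)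
    {a b : ℕ} (ha : Odd a) (hb : Odd b) :
    (indep (pr0 P)).real (SlitCross a b) = perc.real (SlitCross a b) :=
  slit_univ (t_C04 t_C01 t_C02 t_C03) (t_C05 t_C01 t_C02 t_C03) t_C06 t_C07 t_C11
    (t_C13 t_C11) final h0 hP ha hb

/-- layered environment, coordinates centred at the slit: the layer of the edge at `(u,v)` is
`u + v` -/
noncomputable def pr (P : ℤ → unitInterval) (e : Edge) : unitInterval :=
  if ((e.1 + e.2.1) % 2 = 0 ↔ e.2.2 = true) then P ((e.1 + e.2.1) / 2)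
    else unitInterval.symm (P ((e.1 + e.2.1) / 2))

theorem indep_map (θ θ' : Edge → unitInterval) (e : Edge ≃ Edge) (h : ∀ i, θ' (e i) = θ i)
    (S : Set Conf) :
    (indep θ).real ((fun ω : Conf => fun i => ω (e.symm i)) ⁻¹' S) = (indep θ').real S := by
  have hmap : (indep θ).map (MeasurableEquiv.piCongrLeft (fun _ : Edge => Bool) e) =
      indep θ' := by
    unfold indep
    have h1 := Measure.infinitePi_map_piCongrLeft
      (μ := fun i : Edge => (Ber(true, false, θ' i) : Measure Bool)) e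
    rw [← h1]
    congr 2
    funext i
    rw [h]
  have hfun : (fun ω : Conf => fun i => ω (e.symm i)) =
      (MeasurableEquiv.piCongrLeft (fun _ : Edge => Bool) e) := by
    funext ω i
    obtain ⟨j, rfl⟩ := e.surjective i
    rw [MeasurableEquiv.coe_piCongrLeft, Equiv.piCongrLeft_apply_apply, e.symm_apply_apply]
  rw [hfun, measureReal_def, measureReal_def, ← MeasurableEquiv.map_apply, hmap]

/-- the centred event, for odd `a` -/
theorem scross_lay {P : ℤ → unitInterval} {a : ℕ} (ha : Odd a) (b : ℕ) :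
    (indep (pr P)).real (SCross a b) = (indep (pr0 P)).real (H31C.Cross a b) := by
  obtain ⟨k, hk⟩ := ha
  have hkz : (a:ℤ) = 2 * k + 1 := by exact_mod_cast hk
  rw [← indep_map (pr P) (pr0 P) (sh (k + 1) (-k)) (by
    rintro ⟨u, v, d⟩
    have e1 : u + ((k : ℤ) + 1) + (v + -(k : ℤ)) - 1 = u + v := by ring
    simp only [pr, pr0, sh, Equiv.coe_fn_mk, e1]) (H31C.Cross a b)]
  congr 1
  have hstep : ∀ (ω : Conf) (x y : ℤ × ℤ), SAdj a b ω x y ↔
      H31C.SlitAdj a (a+b+1) (fun i => ω ((sh (k+1) (-k)).symm i)) (x.1 + (k+1), x.2 + (-k))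
        (y.1 + (k+1), y.2 + (-k)) := by
    intro ω x y
    unfold SAdj H31C.SlitAdj
    rw [openAdj_sh]
    simp only
    push_cast
    constructor
    · rintro ⟨e1, e2, e3, e4, e5, e6⟩
      exact ⟨e1, by omega, by omega, by omega, by omega, by omega⟩
    · rintro ⟨e1, e2, e3, e4, e5, e6⟩
      exact ⟨e1, by omega, by omega, by omega, by omega, by omega⟩
  ext ω
  constructor
  · rintro ⟨x, y, h1, h2, h3, h4⟩
    refine ⟨(x.1 + (k+1), x.2 + (-k)), (y.1 + (k+1), y.2 + (-k)), ?_, ?_, ?_, ?_⟩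
    · show x.1 + (k+1) - (x.2 + (-k)) = (a:ℤ); omega
    · show 1 ≤ x.1 + (k+1) + (x.2 + (-k)); omega
    · show y.1 + (k+1) - (y.2 + (-k)) = ((a+b+1 : ℕ) : ℤ); push_cast; omega
    · exact h4.lift (fun z : ℤ × ℤ => (z.1 + (k+1), z.2 + (-k))) fun p q hpq => (hstep ω p q).mp hpq
  · rintro ⟨x, y, h1, h2, h3, h4⟩
    refine ⟨(x.1 - (k+1), x.2 - (-k)), (y.1 - (k+1), y.2 - (-k)), ?_, ?_, ?_, ?_⟩
    · show x.1 - (k+1) - (x.2 - (-k)) = 0; omega
    · show 0 ≤ x.1 - (k+1) + (x.2 - (-k)); omega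
    · show y.1 - (k+1) - (y.2 - (-k)) = (b:ℤ) + 1; push_cast at h3; omega
    · refine h4.lift (fun z : ℤ × ℤ => (z.1 - (k+1), z.2 - (-k))) fun p q hpq => ?_
      show SAdj a b ω (p.1 - (k+1), p.2 - (-k)) (q.1 - (k+1), q.2 - (-k))
      rw [hstep]
      simpa using hpq

/-- **universality in the centred coordinates** -/
theorem cen_univ {P : ℤ → unitInterval} {ε : ℝ} (h0 : 0 < ε) (hP : Ell P ε)
    {a b : ℕ} (ha : Odd a) (hb : Odd b) :
    (indep (pr P)).real (SCross a b) = perc.real (SCross a b) := by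
  rw [scross_lay ha, cross_eq31, slit_univ' h0 hP ha hb, ← cross_eq31, scross_eq ha]

/-- the exact formula -/
theorem cen_exact {P : ℤ → unitInterval} {ε : ℝ} (h0 : 0 < ε) (hP : Ell P ε)
    {a b : ℕ} (ha : Odd a) (hb : Odd b) :
    (indep (pr P)).real (SCross a b) = ∑ k ∈ range (a+1), H31C.bw (a+b+1) k := by
  rw [cen_univ h0 hP ha hb, scross_eq ha, H31C.exact_cardy a b ha hb]

/-- the rate, all widths, for every measure which is exact at the odd widths -/
theorem rate_of (μ : Measure Conf) [IsProbabilityMeasure μ]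
    (hμ : ∀ a b : ℕ, Odd a → Odd b → μ.real (SCross a b) = perc.real (SCross a b))
    {a b : ℕ} (ha : 1 ≤ a) (hb : 1 ≤ b) :
    |μ.real (SCross a b) - cardyF ((a:ℝ) / (a + b))| ≤
      60 * ((min a b : ℕ) : ℝ) ^ (-(2/3) : ℝ) * ((a:ℝ) + b) ^ (-(1/3) : ℝ) := by
  have pa : (1:ℝ) ≤ a := by exact_mod_cast ha
  have pb : (1:ℝ) ≤ b := by exact_mod_cast hb
  have hs : (0:ℝ) < (a:ℝ) + b := by linarith
  have key : ∀ a' b' : ℕ, Odd a' → Odd b' → |(a' : ℝ) - a| ≤ 1 → |(b' : ℝ) - b| ≤ 1 →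
      a + b ≤ a' + b' + 1 → |perc.real (SCross a' b') - cardyF ((a:ℝ) / (a + b))| ≤
      60 * ((min a b : ℕ) : ℝ) ^ (-(2/3) : ℝ) * ((a:ℝ) + b) ^ (-(1/3) : ℝ) := by
    intro a' b' ha' hb' h1 h2 h3
    have k1 := H980R4.Rate.cross_rate_odd H31C.exact_cardy ha' hb'
    have k2 := H980R4.Rate.F_near ha hb ha'.pos hb'.pos h1 h2
    rw [← scross_eq ha' b', H980R4.Rate.cardyF_eq] at k1
    rw [H980R4.Rate.cardyF_eq]
    have pa' : (1:ℝ) ≤ a' := by exact_mod_cast ha'.pos
    have pb' : (1:ℝ) ≤ b' := by exact_mod_cast hb'.pos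
    rw [abs_le] at h1 h2
    have h3' : (a:ℝ) + b ≤ a' + b' + 1 := by exact_mod_cast h3
    set n : ℝ := ((min a b : ℕ) : ℝ) with hn
    set n' : ℝ := ((min a' b' : ℕ) : ℝ) with hn'
    have hn1 : 1 ≤ n := by rw [hn]; exact_mod_cast le_min ha hb
    have hna : n ≤ a := by rw [hn]; exact_mod_cast min_le_left a b
    have hnb : n ≤ b := by rw [hn]; exact_mod_cast min_le_right a b
    have hnn : n / 2 ≤ n' := by
      rw [hn', Nat.cast_min, le_min_iff]
      constructor <;> linarith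
    have t1 : n' ^ (-(2/3) : ℝ) ≤ (49/30) * n ^ (-(2/3) : ℝ) := by
      refine (H980R4.Rate.rp_anti (by linarith) hnn).trans ?_
      rw [Real.div_rpow (by linarith) (by norm_num), Real.rpow_neg (by norm_num : (0:ℝ) ≤ 2),
        div_inv_eq_mul, mul_comm]
      apply mul_le_mul_of_nonneg_right _ (by positivity)
      have e : (2:ℝ) ^ (2/3 : ℝ) = ((2:ℝ) ^ (2:ℝ)) ^ (1/3 : ℝ) := by
        rw [← Real.rpow_mul (by norm_num)]; norm_num
      have e2 : (49/30:ℝ) = ((49/30:ℝ) ^ (3:ℝ)) ^ (1/3 : ℝ) := by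
        rw [← Real.rpow_mul (by norm_num)]; norm_num
      rw [e, e2]
      apply Real.rpow_le_rpow (by positivity) _ (by norm_num)
      norm_num
    have t2 : ((a':ℝ) + b' + 1) ^ (-(1/3) : ℝ) ≤ ((a:ℝ) + b) ^ (-(1/3) : ℝ) :=
      Real.rpow_le_rpow_of_nonpos hs h3' (by norm_num)
    have t3 : 30 * n' ^ (-(2/3) : ℝ) * ((a':ℝ) + b' + 1) ^ (-(1/3) : ℝ) ≤
        49 * n ^ (-(2/3) : ℝ) * ((a:ℝ) + b) ^ (-(1/3) : ℝ) :=
      mul_le_mul (by linarith) t2 (by positivity) (by positivity)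
    calc |perc.real (SCross a' b') - H980R4.Rate.F ((a:ℝ) / (a + b))|
        ≤ |perc.real (SCross a' b') - H980R4.Rate.F ((a':ℝ) / (a' + b'))| +
          |H980R4.Rate.F ((a':ℝ) / (a' + b')) - H980R4.Rate.F ((a:ℝ) / (a + b))| :=
            abs_sub_le _ _ _
      _ ≤ _ := by linarith
  have l1 : μ.real (SCross (od a) (ou b)) ≤ μ.real (SCross a b) :=
    measureReal_mono ((scross_mono_left (od_le (by omega)) _).trans
      (scross_anti_right a (le_ou b)))
  have l2 : μ.real (SCross a b) ≤ μ.real (SCross (ou a) (od b)) :=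
    measureReal_mono ((scross_mono_left (le_ou a) _).trans
      (scross_anti_right (ou a) (od_le (by omega))))
  rw [hμ _ _ (od_odd a) (ou_odd b)] at l1
  rw [hμ _ _ (ou_odd a) (od_odd b)] at l2
  have k1 := key (od a) (ou b) (od_odd a) (ou_odd b) (od_dist a) (ou_dist b) (by
    have := le_ou b
    have : a ≤ od a + 1 := by unfold od; split_ifs <;> omega
    omega)
  have k2 := key (ou a) (od b) (ou_odd a) (od_odd b) (ou_dist a) (od_dist b) (by
    have := le_ou a
    have : b ≤ od b + 1 := by unfold od; split_ifs <;> omega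
    omega)
  rw [abs_le] at k1 k2 ⊢
  constructor <;> linarith [k1.1, k1.2, k2.1, k2.2]

end Pool.Agent.Run7.h729.Lay
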