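import Pool.Agent.Run7.h729.Lay.Stat
import Pool.Agent.H988R2.Perc.T24

/-! Convergence to the stationary vector along an arbitrary sequence of anisotropic double rows. -/

namespace Pool.Agent.Run7.h729.Lay

open Pool.Agent.H988R2.Perc Pool.Agent.H988R2.Perc.T24 Filter Topology

theorem dob_tileP {ε p : ℝ} (h0 : 0 ≤ ε) (h1 : ε ≤ p) (h2 : p ≤ 1 - ε) (i : ℕ) :
    Dob (tileP (p : ℂ) i) (good i) ε where
  pos := h0
  le := by linarith
  add f g := by
    unfold tileP
    rw [Finsupp.mapDomain_add, smul_add, smul_add]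
    abel
  smul c f := tileP_smul _ i c f
  mass f := by
    unfold tileP
    rw [T24.mass_add, T24.mass_smul, T24.mass_smul, T24.mass_mapDomain]
    ring
  dec f := by
    have hp : (0:ℝ) ≤ p := by linarith
    have n1 : ‖((1 - p : ℝ) : ℂ)‖ = 1 - p := by
      rw [Complex.norm_real, Real.norm_eq_abs, abs_of_nonneg (by linarith)]
    have n2 : ‖((p - ε : ℝ) : ℂ)‖ = p - ε := by
      rw [Complex.norm_real, Real.norm_eq_abs, abs_of_nonneg (by linarith)]
    have n3 : ‖((1 - p - ε : ℝ) : ℂ)‖ = 1 - p - ε := by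
      rw [Complex.norm_real, Real.norm_eq_abs, abs_of_nonneg (by linarith)]
    have n4 : ‖(p : ℂ)‖ = p := by
      rw [Complex.norm_real, Real.norm_eq_abs, abs_of_nonneg hp]
    have hm := nrm_mapDomain_le (St.act i) f
    have hf := nrm_nonneg f
    by_cases hi : i % 2 = 0
    · have e : tileP (p : ℂ) i f - (ε : ℂ) • Finsupp.mapDomain (good i) f =
          ((1 - p : ℝ) : ℂ) • f + ((p - ε : ℝ) : ℂ) • Finsupp.mapDomain (St.act i) f := by
        have : good i = St.act i := by funext R; simp [good, hi]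
        rw [this]
        unfold tileP
        push_cast
        rw [sub_smul (p : ℂ) (ε : ℂ)]
        abel
      rw [e]
      refine (nrm_add_le _ _).trans ?_
      rw [nrm_smul, nrm_smul, n1, n2]
      have := mul_le_mul_of_nonneg_left hm (show (0:ℝ) ≤ p - ε by linarith)
      linarith
    · have e : tileP (p : ℂ) i f - (ε : ℂ) • Finsupp.mapDomain (good i) f =
          ((1 - p - ε : ℝ) : ℂ) • f + (p : ℂ) • Finsupp.mapDomain (St.act i) f := by
        have : good i = id := by funext R; simp [good, hi]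
        rw [this, Finsupp.mapDomain_id]
        unfold tileP
        push_cast
        rw [sub_smul (1 - p : ℂ) (ε : ℂ)]
        abel
      rw [e]
      refine (nrm_add_le _ _).trans ?_
      rw [nrm_smul, nrm_smul, n3, n4]
      have := mul_le_mul_of_nonneg_left hm hp
      linarith

theorem dob_fwdP {ε p : ℝ} (h0 : 0 ≤ ε) (h1 : ε ≤ p) (h2 : p ≤ 1 - ε) (L : ℕ) :
    Dob (fwdP (p : ℂ) L) (gfwd L) (ε^L) := by
  induction L with
  | zero =>
    have h := dob_map (fun R => R)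
    have e : (Finsupp.mapDomain (fun R : St => R) : (St →₀ ℂ) → (St →₀ ℂ)) = fwdP (p : ℂ) 0 := by
      funext f
      exact Finsupp.mapDomain_id
    rw [e] at h
    have e2 : gfwd 0 = (fun R => R) := rfl
    rw [e2, pow_zero]
    exact h
  | succ L ih =>
    have h := (dob_tileP h0 h1 h2 (L+1)).comp ih
    rw [pow_succ, mul_comm]
    exact h

theorem dob_bwdP {ε p : ℝ} (h0 : 0 ≤ ε) (h1 : ε ≤ p) (h2 : p ≤ 1 - ε) (L : ℕ) :
    Dob (bwdP (p : ℂ) L) (gbwd L) (ε^L) := by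
  induction L with
  | zero =>
    have h := dob_map (fun R => R)
    have e : (Finsupp.mapDomain (fun R : St => R) : (St →₀ ℂ) → (St →₀ ℂ)) = bwdP (p : ℂ) 0 := by
      funext f
      exact Finsupp.mapDomain_id
    rw [e] at h
    have e2 : gbwd 0 = (fun R => R) := rfl
    rw [e2, pow_zero]
    exact h
  | succ L ih =>
    have h := ih.comp (dob_tileP h0 h1 h2 (L+1))
    rw [pow_succ]
    exact h

theorem dob_TvecP {ε p : ℝ} (h0 : 0 ≤ ε) (h1 : ε ≤ p) (h2 : p ≤ 1 - ε) (L : ℕ) :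
    Dob (TvecP (p : ℂ) L) (gT L) (ε^L * ε^L) := by
  have h := (dob_map (St.cap 0)).comp
    ((dob_bwdP h0 h1 h2 L).comp ((dob_fwdP h0 h1 h2 L).comp (dob_map (St.ins 0))))
  rw [one_mul, mul_one] at h
  exact h

theorem bdV_tileP {K i : ℕ} (p : ℂ) (hi : i + 2 < K) {f : St →₀ ℂ} (hf : BdV K f) :
    BdV K (tileP p i f) :=
  (hf.smul _).add ((hf.map fun _ h => bd_act hi h).smul _)

theorem bdV_fwdP {K L : ℕ} (p : ℂ) (hi : L + 2 < K) {f : St →₀ ℂ} (hf : BdV K f) :
    BdV K (fwdP p L f) := by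
  induction L with
  | zero => exact hf
  | succ L ih => exact bdV_tileP p hi (ih (by omega))

theorem bdV_bwdP {K L : ℕ} (p : ℂ) (hi : L + 2 < K) {f : St →₀ ℂ} (hf : BdV K f) :
    BdV K (bwdP p L f) := by
  induction L generalizing f with
  | zero => exact hf
  | succ L ih => exact ih (by omega) (bdV_tileP p hi hf)

theorem bdV_TvecP {L : ℕ} (p : ℂ) {f : St →₀ ℂ} (hf : BdV (L+1) f) : BdV (L+1) (TvecP p L f) :=
  (bdV_bwdP p (by omega) (bdV_fwdP p (by omega) (hf.map fun _ h => bd_ins h))).map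
    fun _ h => bd_cap (by omega) h

theorem contractP {ε p : ℝ} (h0 : 0 ≤ ε) (h1 : ε ≤ p) (h2 : p ≤ 1 - ε) {L : ℕ} (hL : Odd L)
    {f : St →₀ ℂ} (hf : BdV (L+1) f) (hm : mass f = 0) :
    nrm (TvecP (p : ℂ) L f) ≤ (1 - ε^L * ε^L) * nrm f := by
  have h := (dob_TvecP h0 h1 h2 L).dec f
  rw [mapDomain_gT hL hf, hm, Finsupp.single_zero, smul_zero, sub_zero] at h
  exact h

/-- the number of the elliptic indices below `M` -/
noncomputable def cnt (ε : ℝ) (π : ℕ → ℝ) : ℕ → ℕ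
  | 0 => 0
  | M+1 => open Classical in cnt ε π M + (if ε ≤ π M ∧ π M ≤ 1 - ε then 1 else 0)

theorem evol_bound {ε : ℝ} (h0 : 0 ≤ ε) (h1 : ε ≤ 1) {L : ℕ} (hL : Odd L) (π : ℕ → ℝ)
    (hπ : ∀ m, 0 ≤ π m ∧ π m ≤ 1) (w : St →₀ ℂ) (hwT : ∀ m, TvecP (π m : ℂ) L w = w)
    (hwB : BdV (L+1) w) (hwm : mass w = 1) (M : ℕ) :
    nrm (lawP (fun m => (π m : ℂ)) L M + (-1 : ℂ) • w) ≤ (1 - ε^L * ε^L)^(cnt ε π M) *
      nrm (Finsupp.single St.bot 1 + (-1 : ℂ) • w) ∧
    BdV (L+1) (lawP (fun m => (π m : ℂ)) L M + (-1 : ℂ) • w) ∧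
    mass (lawP (fun m => (π m : ℂ)) L M + (-1 : ℂ) • w) = 0 := by
  classical
  have hρ : 0 ≤ 1 - ε^L * ε^L := by
    have h3 : ε^L ≤ 1 := pow_le_one₀ h0 h1
    have h4 : 0 ≤ ε^L := pow_nonneg h0 L
    nlinarith
  induction M with
  | zero =>
    refine ⟨?_, ?_, ?_⟩
    · simp [lawP, cnt]
    · refine BdV.add ?_ (hwB.smul _)
      intro R hR a b h
      have : R = St.bot := by
        have := Finsupp.support_single_subset hR
        simpa using this
      subst this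
      exact Or.inl h
    · rw [lawP, T24.mass_add, T24.mass_smul, T24.mass_single, hwm]; ring
  | succ M ih =>
    obtain ⟨i1, i2, i3⟩ := ih
    have hD := dob_TvecP (ε := 0) le_rfl (hπ M).1 (by linarith [(hπ M).2]) L
    have e : lawP (fun m => (π m : ℂ)) L (M+1) + (-1 : ℂ) • w =
        TvecP (π M : ℂ) L (lawP (fun m => (π m : ℂ)) L M + (-1 : ℂ) • w) := by
      rw [hD.add, TvecP_smul, hwT M]
      rfl
    rw [e]
    refine ⟨?_, bdV_TvecP _ i2, by rw [hD.mass, i3]⟩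
    unfold cnt
    split_ifs with hc
    · refine (contractP h0 hc.1 hc.2 hL i2 i3).trans ?_
      rw [pow_succ]
      calc (1 - ε^L * ε^L) * nrm (lawP (fun m => (π m : ℂ)) L M + (-1 : ℂ) • w) ≤
          (1 - ε^L * ε^L) * ((1 - ε^L * ε^L)^(cnt ε π M) *
            nrm (Finsupp.single St.bot 1 + (-1 : ℂ) • w)) := mul_le_mul_of_nonneg_left i1 hρ
        _ = _ := by ring
    · rw [add_zero]
      exact (hD.nrm_le _).trans i1

/-- **convergence** along environments `π M` (depending on the number of the rows) with more and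
more elliptic rows -/
theorem law_tendsto {ε : ℝ} (h0 : 0 < ε) (h1 : ε ≤ 1) {L : ℕ} (hL : Odd L) (π : ℕ → ℕ → ℝ)
    (hπ : ∀ M m, 0 ≤ π M m ∧ π M m ≤ 1) (v : St →₀ ℂ)
    (hvT : ∀ M m, TvecP (π M m : ℂ) L v = v)
    (hvB : BdV (L+1) v) (hvm : mass v ≠ 0) (hc : Tendsto (fun M => cnt ε (π M) M) atTop atTop) :
    Tendsto (fun M => nrm (lawP (fun m => (π M m : ℂ)) L M + (-1 : ℂ) • ((mass v)⁻¹ • v)))
      atTop (𝓝 0) := by
  set w : St →₀ ℂ := (mass v)⁻¹ • v with hw
  have hwT : ∀ M m, TvecP (π M m : ℂ) L w = w := by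
    intro M m
    rw [hw, TvecP_smul, hvT]
  have hwm : mass w = 1 := by rw [hw, T24.mass_smul, inv_mul_cancel₀ hvm]
  have hwB : BdV (L+1) w := hvB.smul _
  set ρ : ℝ := 1 - ε^L * ε^L with hρ
  have hρ0 : 0 ≤ ρ := by
    have h3 : ε^L ≤ 1 := pow_le_one₀ h0.le h1
    have h4 : 0 ≤ ε^L := pow_nonneg h0.le L
    nlinarith
  have hρ1 : ρ < 1 := by
    have : (0:ℝ) < ε^L * ε^L := by positivity
    linarith
  have hlim : Tendsto (fun M : ℕ => ρ^(cnt ε (π M) M) *
      nrm (Finsupp.single St.bot 1 + (-1 : ℂ) • w)) atTop (𝓝 0) := by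
    have := ((tendsto_pow_atTop_nhds_zero_of_lt_one hρ0 hρ1).comp hc).mul_const
      (nrm (Finsupp.single St.bot 1 + (-1 : ℂ) • w))
    simpa using this
  refine squeeze_zero (fun _ => nrm_nonneg _) (fun M => ?_) hlim
  exact (evol_bound h0.le h1 hL (π M) (hπ M) w (hwT M) hwB hwm M).1

end Pool.Agent.Run7.h729.Lay
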