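import Pool.Agent.Run7.h729.Lay.Stat
import Pool.Agent.H988R2.Perc.T23

/-! The law of the state driven by independent bits with layered weights. -/

namespace Pool.Agent.Run7.h729.Lay

open Pool.Agent.H988R2.Perc Finset

/-- weight of a set of open bits, `θ j` = probability that the bit `j` is open -/
noncomputable def wt (θ : ℕ × ℕ → ℝ) (S t : Finset (ℕ × ℕ)) : ℝ :=
  ∏ j ∈ S, if j ∈ t then θ j else 1 - θ j

theorem wt_not {θ : ℕ × ℕ → ℝ} {S t : Finset (ℕ × ℕ)} {j : ℕ × ℕ} (hS : j ∉ S) (ht : j ∉ t) :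
    wt θ (insert j S) t = (1 - θ j) * wt θ S t := by
  unfold wt
  rw [Finset.prod_insert hS, if_neg ht]

theorem wt_mem {θ : ℕ × ℕ → ℝ} {S t : Finset (ℕ × ℕ)} {j : ℕ × ℕ} (hS : j ∉ S) :
    wt θ (insert j S) (insert j t) = θ j * wt θ S t := by
  unfold wt
  rw [Finset.prod_insert hS, if_pos (Finset.mem_insert_self _ _)]
  congr 1
  refine Finset.prod_congr rfl fun j' hj' => ?_
  have hne : j' ≠ j := fun h => hS (h ▸ hj')
  simp [Finset.mem_insert, hne]

/-- weighted sum of point masses -/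
noncomputable def WS (θ : ℕ × ℕ → ℝ) (S : Finset (ℕ × ℕ)) (Y : Finset (ℕ × ℕ) → St) : St →₀ ℂ :=
  ∑ t ∈ S.powerset, Finsupp.single (Y t) ((wt θ S t : ℝ) : ℂ)

theorem mapDomain_WS (g : St → St) (θ : ℕ × ℕ → ℝ) (S : Finset (ℕ × ℕ))
    (Y : Finset (ℕ × ℕ) → St) :
    Finsupp.mapDomain g (WS θ S Y) = WS θ S (fun t => g (Y t)) := by
  unfold WS
  rw [Finsupp.mapDomain_finsetSum]
  simp only [Finsupp.mapDomain_single]

/-- one tile -/
theorem tile_stepP (θ : ℕ × ℕ → ℝ) (p : ℝ) (S : Finset (ℕ × ℕ)) (k i : ℕ) (hS : (k, i) ∉ S)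
    (hθ : θ (k, i) = if i % 2 = 1 then p else 1 - p)
    (Y : Finset (ℕ × ℕ) → St) (hY : ∀ t, Y (insert (k, i) t) = Y t) :
    tileP (p : ℂ) i (WS θ S Y) = WS θ (insert (k, i) S)
      (fun t => if actBit (T23.bits t) k i then St.act i (Y t) else Y t) := by
  unfold tileP
  rw [mapDomain_WS]
  unfold WS
  rw [Finset.sum_powerset_insert hS, Finset.smul_sum, Finset.smul_sum, ← Finset.sum_add_distrib,
    ← Finset.sum_add_distrib]
  refine Finset.sum_congr rfl fun t ht => ?_
  have hnt : (k, i) ∉ t := fun h => hS (Finset.mem_powerset.mp ht h)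
  beta_reduce
  rw [hY, wt_not hS hnt, wt_mem hS]
  have h1 : actBit (T23.bits t) k i = if i % 2 = 1 then false else true := by
    simp [actBit, T23.bits_not_mem t k i hnt]
  have h2 : actBit (T23.bits (insert (k, i) t)) k i = if i % 2 = 1 then true else false := by
    simp [actBit, T23.bits_insert_self t k i]
  rw [h1, h2, hθ]
  by_cases h : i % 2 = 1
  · simp only [h, if_true, Bool.false_eq_true, if_false]
    rw [Finsupp.smul_single, Finsupp.smul_single]
    push_cast
    rfl
  · simp only [h, if_false, Bool.false_eq_true, if_true]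
    rw [Finsupp.smul_single, Finsupp.smul_single, add_comm]
    push_cast
    simp only [smul_eq_mul, sub_sub_cancel]

theorem row_zero (S : Finset (ℕ × ℕ)) (k : ℕ) : S ∪ T23.row k 0 = S := by
  ext j; simp only [mem_union, T23.mem_row]; constructor
  · rintro (h | h)
    · exact h
    · omega
  · exact Or.inl

theorem fwd_stepP (θ : ℕ × ℕ → ℝ) (p : ℝ) (n : ℕ) (S : Finset (ℕ × ℕ)) (k : ℕ)
    (hS : ∀ i, 1 ≤ i → i ≤ n → (k, i) ∉ S)
    (hθ : ∀ i, θ (k, i) = if i % 2 = 1 then p else 1 - p)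
    (Y : Finset (ℕ × ℕ) → St) (hY : ∀ i t, 1 ≤ i → i ≤ n → Y (insert (k, i) t) = Y t) :
    fwdP (p : ℂ) n (WS θ S Y) =
      WS θ (S ∪ T23.row k n) (fun t => fwdS n (actBit (T23.bits t) k) (Y t)) := by
  induction n with
  | zero => simp only [fwdP, fwdS, row_zero]
  | succ n ih =>
    simp only [fwdP]
    rw [ih (fun i h1 h2 => hS i h1 (by omega)) (fun i t h1 h2 => hY i t h1 (by omega)),
      T23.row_succ]
    have hn : (k, n+1) ∉ S ∪ T23.row k n := by
      simp only [mem_union, T23.mem_row, not_or]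
      exact ⟨hS (n+1) (by omega) le_rfl, by omega⟩
    rw [tile_stepP θ p (S ∪ T23.row k n) k (n+1) hn (hθ _)
      (fun t => fwdS n (actBit (T23.bits t) k) (Y t)) (by
        intro t
        rw [hY (n+1) t (by omega) le_rfl]
        exact T23.fwdS_congr n _ _ _ (fun i _ h2 => T23.actBit_insert t k i (n+1) (by omega)))]
    rfl

theorem bwd_stepP (θ : ℕ × ℕ → ℝ) (p : ℝ) (n : ℕ) (S : Finset (ℕ × ℕ)) (k : ℕ)
    (hS : ∀ i, 1 ≤ i → i ≤ n → (k, i) ∉ S)
    (hθ : ∀ i, θ (k, i) = if i % 2 = 1 then p else 1 - p)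
    (Y : Finset (ℕ × ℕ) → St) (hY : ∀ i t, 1 ≤ i → i ≤ n → Y (insert (k, i) t) = Y t) :
    bwdP (p : ℂ) n (WS θ S Y) =
      WS θ (S ∪ T23.row k n) (fun t => bwdS n (actBit (T23.bits t) k) (Y t)) := by
  induction n generalizing S Y with
  | zero => simp only [bwdP, bwdS, row_zero]
  | succ n ih =>
    simp only [bwdP]
    rw [tile_stepP θ p S k (n+1) (hS (n+1) (by omega) le_rfl) (hθ _) Y
      (fun t => hY (n+1) t (by omega) le_rfl)]
    rw [ih (insert (k, n+1) S) ?_
      (fun t => if actBit (T23.bits t) k (n+1) then St.act (n+1) (Y t) else Y t) ?_]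
    · rw [T23.row_succ']
      rfl
    · intro i h1 h2 h
      rw [mem_insert] at h
      rcases h with h | h
      · simp only [Prod.mk.injEq] at h; omega
      · exact hS i h1 (by omega) h
    · intro i t h1 h2
      rw [hY i t h1 (by omega), T23.actBit_insert t k (n+1) i (by omega)]

/-- **the law of the state** driven by independent layered bits -/
theorem lawP_eq (θ : ℕ × ℕ → ℝ) (π : ℕ → ℝ)
    (hθ : ∀ k i, θ (k, i) = if i % 2 = 1 then π (k / 2) else 1 - π (k / 2)) (L M : ℕ) :
    lawP (fun m => (π m : ℂ)) L M =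
      WS θ (T23.SS L M) (fun t => X L (actBit (T23.bits t)) M) := by
  induction M with
  | zero =>
    have : T23.SS L 0 = ∅ := by simp [T23.SS]
    simp [lawP, this, X, WS, wt]
  | succ M ih =>
    have e1 : (2 * M) / 2 = M := by omega
    have e2 : (2 * M + 1) / 2 = M := by omega
    rw [lawP, ih]
    unfold TvecP
    rw [mapDomain_WS, fwd_stepP θ (π M) L (T23.SS L M) (2*M)
        (fun i _ _ h => by rw [T23.mem_SS] at h; simp at h)
        (fun i => by rw [hθ, e1]) (fun t => St.ins 0 (X L (actBit (T23.bits t)) M)) ?_,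
      bwd_stepP θ (π M) L (T23.SS L M ∪ T23.row (2*M) L) (2*M+1)
        (fun i _ _ h => by
          rw [mem_union, T23.mem_SS, T23.mem_row] at h
          simp only at h
          omega)
        (fun i => by rw [hθ, e2])
        (fun t => fwdS L (actBit (T23.bits t) (2*M)) (St.ins 0 (X L (actBit (T23.bits t)) M))) ?_,
      mapDomain_WS, ← T23.SS_succ]
    · rfl
    · intro i t _ _
      have e1 : ∀ k i', k ≠ 2*M+1 → actBit (T23.bits (insert (2*M+1, i) t)) k i' =
          actBit (T23.bits t) k i' := by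
        intro k i' hk
        simp [actBit, T23.bits, hk]
      rw [T23.X_congr L _ (actBit (T23.bits t)) M (fun k i' hk _ _ => e1 k i' (by omega)),
        T23.fwdS_congr L _ (actBit (T23.bits t) (2*M)) _ (fun i' _ _ => e1 _ i' (by omega))]
    · intro i t _ _
      have e1 : ∀ k i', k ≠ 2*M → actBit (T23.bits (insert (2*M, i) t)) k i' =
          actBit (T23.bits t) k i' := by
        intro k i' hk
        simp [actBit, T23.bits, hk]
      rw [T23.X_congr L _ (actBit (T23.bits t)) M (fun k i' hk _ _ => e1 k i' (by omega))]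

end Pool.Agent.Run7.h729.Lay
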