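import Pool.Agent.Run7.h729.Lay.Law
import Pool.Agent.H980R3.Slit.C08
import Pool.Agent.H980R3.Slit.C10
import Mathlib.Probability.Distributions.Bernoulli

/-! Window probabilities for independent layered edges. -/

namespace Pool.Agent.Run7.h729.Lay

open Pool.Agent.H988R2.Perc Pool.Agent.H980R3.Slit Finset MeasureTheory ProbabilityTheory

/-- independent edges, the edge `e` is open with probability `θ e` -/
noncomputable def indep (θ : Edge → unitInterval) : Measure Conf :=
  Measure.infinitePi (fun e : Edge => Ber(true, false, θ e))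

instance (θ : Edge → unitInterval) : IsProbabilityMeasure (indep θ) := by
  unfold indep; infer_instance

theorem ber_singleton (p : unitInterval) (b : Bool) :
    (Ber(true, false, p) : Measure Bool).real {b} = if b then (p : ℝ) else 1 - p := by
  classical
  rw [bernoulliMeasure_real_apply p (measurableSet_singleton b)]
  cases b <;> simp

/-- a cylinder given by finitely many distinct edges -/
theorem indep_cyl (θ : Edge → unitInterval) {J : Type*} [Fintype J] (e : J → Edge)
    (he : Function.Injective e) (b : J → Bool) :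
    (indep θ).real (⋂ j : J, (fun ω : Conf => ω (e j)) ⁻¹' {b j}) =
      ∏ j : J, (if b j then (θ (e j) : ℝ) else 1 - θ (e j)) := by
  have hind : ProbabilityTheory.iIndepFun (fun (e : Edge) (ω : Conf) => ω e) (indep θ) := by
    unfold indep
    exact ProbabilityTheory.iIndepFun_infinitePi (X := fun _ b => b) (fun _ => measurable_id)
  have hind2 := hind.precomp he
  have h3 := hind2.measure_inter_preimage_eq_mul (Finset.univ : Finset J)
    (sets := fun j => {b j}) (fun j _ => measurableSet_singleton _)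
  simp only [Finset.mem_univ, Set.iInter_true] at h3
  rw [measureReal_def, h3, ENNReal.toReal_prod]
  refine Finset.prod_congr rfl fun j _ => ?_
  have := (measurePreserving_eval_infinitePi (fun e : Edge => (Ber(true, false, θ e) : Measure Bool))
    (e j)).measure_preimage (measurableSet_singleton (b j)).nullMeasurableSet
  rw [← ber_singleton, measureReal_def, ← this]
  rfl

/-- open probabilities of the bits of the past window -/
noncomputable def θP (θ : Edge → unitInterval) (M : ℕ) (j : ℕ × ℕ) : ℝ := θ (T23.eP M j)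
/-- open probabilities of the bits of the future window -/
noncomputable def θF (θ : Edge → unitInterval) (M : ℕ) (j : ℕ × ℕ) : ℝ := θ (T23.eF M j)
/-- open probabilities of the bits of the right future window -/
noncomputable def θR (θ : Edge → unitInterval) (a M : ℕ) (j : ℕ × ℕ) : ℝ := θ (C08.eR a M j)

theorem prod_wt (ϑ : ℕ × ℕ → ℝ) (S t : Finset (ℕ × ℕ)) :
    ∏ j : ↥S, (if decide (j.1 ∈ t) = true then ϑ j.1 else 1 - ϑ j.1) = wt ϑ S t := by
  unfold wt
  rw [← Finset.prod_coe_sort S]
  refine Finset.prod_congr rfl fun j _ => ?_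
  simp

theorem indep_cell3 (θ : Edge → unitInterval) (a b M : ℕ) (p0 p1 p2 : Finset (ℕ × ℕ))
    (h0 : p0 ⊆ T23.SS (a+b+1) M) (h1 : p1 ⊆ T23.SS a M) (h2 : p2 ⊆ T23.SS b M) :
    MeasurableSet (cell3 a b M p0 p1 p2) ∧ (indep θ).real (cell3 a b M p0 p1 p2) =
      wt (θP θ M) (T23.SS (a+b+1) M) p0 * wt (θF θ M) (T23.SS a M) p1 *
        wt (θR θ a M) (T23.SS b M) p2 := by
  rw [C08.cell3_eq a b M p0 p1 p2 h0 h1 h2]
  refine ⟨C08.measurableSet_cyl _ _, ?_⟩
  rw [indep_cyl θ _ (C08.ee3_inj a b M), Fintype.prod_sum_type, Fintype.prod_sum_type]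
  congr 1
  · congr 1
    · exact prod_wt (θP θ M) _ _
    · exact prod_wt (θF θ M) _ _
  · exact prod_wt (θR θ a M) _ _

open Classical in
theorem pair3_WS (a b : ℕ) (θ0 θ1 θ2 : ℕ × ℕ → ℝ) (S0 S1 S2 : Finset (ℕ × ℕ))
    (R0 R1 R2 : Finset (ℕ × ℕ) → St) :
    pair3 a b (WS θ0 S0 R0) (WS θ1 S1 R1) (WS θ2 S2 R2) =
      ∑ t0 ∈ S0.powerset, ∑ t1 ∈ S1.powerset, ∑ t2 ∈ S2.powerset,
        (if conn3 a b (R0 t0) (R1 t1) (R2 t2) then
          ((wt θ0 S0 t0 * wt θ1 S1 t1 * wt θ2 S2 t2 : ℝ) : ℂ) else 0) := by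
  have key : ∀ f g h : St →₀ ℂ, pair3 a b f g h =
      Finsupp.linearCombination ℂ (fun R => Finsupp.linearCombination ℂ
        (fun R1 => Finsupp.linearCombination ℂ
          (fun R2 => if conn3 a b R R1 R2 then (1:ℂ) else 0) h) g) f := by
    intro f g h
    unfold pair3
    rw [Finsupp.linearCombination_apply]
    apply Finsupp.sum_congr
    intro x _
    rw [Finsupp.linearCombination_apply, Finsupp.sum, Finsupp.sum, Finset.smul_sum]
    apply Finset.sum_congr rfl
    intro y _
    rw [Finsupp.linearCombination_apply, Finsupp.sum, Finsupp.sum, Finset.smul_sum,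
      Finset.smul_sum]
    apply Finset.sum_congr rfl
    intro w _
    simp only [smul_eq_mul]
    ring
  rw [key]
  unfold WS
  rw [map_sum]
  simp only [Finsupp.linearCombination_single, map_sum, smul_eq_mul]
  simp only [Finset.mul_sum]
  refine Finset.sum_congr rfl fun t0 _ => Finset.sum_congr rfl fun t1 _ =>
    Finset.sum_congr rfl fun t2 _ => ?_
  split_ifs
  · push_cast; ring
  · ring

open Classical in
theorem winS_prob (θ : Edge → unitInterval) (a b M : ℕ) :
    (((indep θ).real (WinS a b M) : ℝ) : ℂ) =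
      pair3 a b (WS (θP θ M) (T23.SS (a+b+1) M) (fun t => X (a+b+1) (actBit (T23.bits t)) M))
        (WS (θF θ M) (T23.SS a M) (fun t => X a (actBit (T23.bits t)) M))
        (WS (θR θ a M) (T23.SS b M) (fun t => X b (actBit (T23.bits t)) M)) := by
  have hc : ∀ p ∈ C10.good3 a b M, MeasurableSet (cell3 a b M p.1 p.2.1 p.2.2) ∧
      (indep θ).real (cell3 a b M p.1 p.2.1 p.2.2) =
        wt (θP θ M) (T23.SS (a+b+1) M) p.1 * wt (θF θ M) (T23.SS a M) p.2.1 *
        wt (θR θ a M) (T23.SS b M) p.2.2 := by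
    intro p hp
    obtain ⟨⟨h1, h2, h3⟩, _⟩ := C10.mem_good3.1 hp
    exact indep_cell3 θ a b M p.1 p.2.1 p.2.2 h1 h2 h3
  rw [pair3_WS, C10.winS_eq, measureReal_biUnion_finset]
  · rw [Finset.sum_congr rfl fun p hp => (hc p hp).2]
    unfold C10.good3
    rw [Finset.sum_filter, Finset.sum_product]
    push_cast
    refine Finset.sum_congr rfl fun t0 _ => ?_
    rw [Finset.sum_product]
    refine Finset.sum_congr rfl fun t1 _ => Finset.sum_congr rfl fun t2 _ => ?_
    split_ifs <;> push_cast <;> rfl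
  · intro p _ p' _ hne
    rw [Function.onFun, Set.disjoint_left]
    rintro ω ⟨h1, h2, h3⟩ ⟨h4, h5, h6⟩
    exact hne (Prod.ext (h1.symm.trans h4) (Prod.ext (h2.symm.trans h5) (h3.symm.trans h6)))
  · intro p hp
    exact (hc p hp).1

/-! ### the one-arm window -/

open Classical in
theorem pair_WS (L : ℕ) (θ0 θ1 : ℕ × ℕ → ℝ) (S0 S1 : Finset (ℕ × ℕ))
    (R0 R1 : Finset (ℕ × ℕ) → St) :
    pair L (WS θ0 S0 R0) (WS θ1 S1 R1) =
      ∑ t0 ∈ S0.powerset, ∑ t1 ∈ S1.powerset,
        (if conn L (R0 t0) (R1 t1) then ((wt θ0 S0 t0 * wt θ1 S1 t1 : ℝ) : ℂ) else 0) := by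
  have key : ∀ f g : St →₀ ℂ, pair L f g =
      Finsupp.linearCombination ℂ (fun R => Finsupp.linearCombination ℂ
        (fun R' => if conn L R R' then (1:ℂ) else 0) g) f := by
    intro f g
    unfold pair
    rw [Finsupp.linearCombination_apply]
    apply Finsupp.sum_congr
    intro x _
    rw [Finsupp.linearCombination_apply, Finsupp.sum, Finsupp.sum, Finset.smul_sum]
    apply Finset.sum_congr rfl
    intro y _
    simp only [smul_eq_mul]
    ring
  rw [key]
  unfold WS
  rw [map_sum]
  simp only [Finsupp.linearCombination_single, map_sum, smul_eq_mul]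
  simp only [Finset.mul_sum]
  refine Finset.sum_congr rfl fun t0 _ => Finset.sum_congr rfl fun t1 _ => ?_
  split_ifs
  · push_cast; ring
  · ring

theorem indep_cell (θ : Edge → unitInterval) (L M : ℕ) (p : Finset (ℕ × ℕ) × Finset (ℕ × ℕ))
    (h1 : p.1 ⊆ T23.SS L M) (h2 : p.2 ⊆ T23.SS L M) :
    (indep θ).real (T23.cell L M p) =
      wt (θP θ M) (T23.SS L M) p.1 * wt (θF θ M) (T23.SS L M) p.2 := by
  rw [T23.cell_eq L M p h1 h2, indep_cyl θ _ (T23.ee_inj L M), Fintype.prod_sum_type]
  congr 1
  · exact prod_wt (θP θ M) _ _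
  · exact prod_wt (θF θ M) _ _

open Classical in
theorem win_prob (θ : Edge → unitInterval) (L M : ℕ) :
    (((indep θ).real (Win L M) : ℝ) : ℂ) =
      pair L (WS (θP θ M) (T23.SS L M) (fun t => X L (actBit (T23.bits t)) M))
        (WS (θF θ M) (T23.SS L M) (fun t => X L (actBit (T23.bits t)) M)) := by
  rw [pair_WS, T23.win_eq, measureReal_biUnion_finset]
  · rw [Finset.sum_congr rfl fun p hp => indep_cell θ L M p (T23.good_sub hp).1 (T23.good_sub hp).2]
    unfold T23.good
    rw [Finset.sum_filter, Finset.sum_product]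
    push_cast
    refine Finset.sum_congr rfl fun t0 _ => Finset.sum_congr rfl fun t1 _ => ?_
    split_ifs <;> push_cast <;> rfl
  · intro p _ p' _ hne
    rw [Function.onFun, Set.disjoint_left]
    rintro ω ⟨h1, h2⟩ ⟨h3, h4⟩
    exact hne (Prod.ext (h1.symm.trans h3) (h2.symm.trans h4))
  · intro p hp
    exact T23.measurableSet_cell L M p (T23.good_sub hp).1 (T23.good_sub hp).2

end Pool.Agent.Run7.h729.Lay
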