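import Pool.Agent.H988R2.Perc.T20

/-! Stationarity of the homogeneous qKZ vector under ALL anisotropic double-row transfer
matrices (the commuting family), and the anisotropic operators. -/

namespace Pool.Agent.Run7.h729.Lay

open Pool.Agent.H988R2.Perc

/-- one tile with weights: identity `1 - p`, generator `p` -/
noncomputable def tileP (p : ℂ) (i : ℕ) (f : St →₀ ℂ) : St →₀ ℂ :=
  (1 - p) • f + p • Finsupp.mapDomain (St.act i) f

/-- tiles `1, 2, …, L` (in this order) -/
noncomputable def fwdP (p : ℂ) : ℕ → (St →₀ ℂ) → (St →₀ ℂ)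
  | 0, f => f
  | L+1, f => tileP p (L+1) (fwdP p L f)

/-- tiles `L, L-1, …, 1` (in this order) -/
noncomputable def bwdP (p : ℂ) : ℕ → (St →₀ ℂ) → (St →₀ ℂ)
  | 0, f => f
  | L+1, f => bwdP p L (tileP p (L+1) f)

/-- the anisotropic double-row transfer matrix -/
noncomputable def TvecP (p : ℂ) (L : ℕ) (f : St →₀ ℂ) : St →₀ ℂ :=
  Finsupp.mapDomain (St.cap 0) (bwdP p L (fwdP p L (Finsupp.mapDomain (St.ins 0) f)))

/-- law after `M` double rows with parameters `π 0, …, π (M-1)` -/
noncomputable def lawP (π : ℕ → ℂ) (L : ℕ) : ℕ → St →₀ ℂ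
  | 0 => Finsupp.single St.bot 1
  | M+1 => TvecP (π M) L (lawP π L M)

theorem tileP_smul (p : ℂ) (i : ℕ) (c : ℂ) (f : St →₀ ℂ) : tileP p i (c • f) = c • tileP p i f := by
  unfold tileP
  rw [T20.mapDomain_lin, smul_add, smul_comm (1 - p) c, smul_comm p c]

theorem fwdP_smul (p : ℂ) (L : ℕ) (c : ℂ) (f : St →₀ ℂ) : fwdP p L (c • f) = c • fwdP p L f := by
  induction L with
  | zero => rfl
  | succ L ih => simp only [fwdP]; rw [ih, tileP_smul]

theorem bwdP_smul (p : ℂ) (L : ℕ) (c : ℂ) (f : St →₀ ℂ) : bwdP p L (c • f) = c • bwdP p L f := by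
  induction L generalizing f with
  | zero => rfl
  | succ L ih => simp only [bwdP]; rw [tileP_smul, ih]

theorem TvecP_smul (p : ℂ) (L : ℕ) (c : ℂ) (f : St →₀ ℂ) : TvecP p L (c • f) = c • TvecP p L f := by
  unfold TvecP
  rw [T20.mapDomain_lin, fwdP_smul, bwdP_smul, T20.mapDomain_lin]

/-- moving `y` to the right through a `1` is an anisotropic tile -/
theorem move_rightP (p y : ℂ) (hy : y * (1 + p * q) = 1 + p * q^2) (hyq : q * y - q^2 ≠ 0)
    (u v : List ℂ) (h : Even (u.length + v.length)) :
    Psi (u ++ 1 :: y :: v) = tileP p u.length (Psi (u ++ y :: 1 :: v)) := by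
  have h1 := Psi_exch u v y 1 h
  have hs := q_spec
  have e2 : q * 1 - q^2 * y = (q * y - q^2) * (1 - p) := by
    linear_combination (-y) * hs + hy + hs
  have e3 : (1 : ℂ) - y = (q * y - q^2) * p := by
    linear_combination -hy
  rw [mul_one, e2, e3] at h1
  have h3 : Psi (u ++ 1 :: y :: v) = (q * y - q^2)⁻¹ • ((q * y - q^2) • Psi (u ++ 1 :: y :: v)) := by
    rw [smul_smul, inv_mul_cancel₀ hyq, one_smul]
  rw [h3, h1, smul_add, smul_smul, smul_smul, ← mul_assoc, ← mul_assoc, inv_mul_cancel₀ hyq,
    one_mul, one_mul]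
  rfl

/-- moving `z = y⁻¹` to the left through a `1` is an anisotropic tile -/
theorem move_leftP (p y z : ℂ) (hy : y * (1 + p * q) = 1 + p * q^2) (hyz : y * z = 1)
    (hyq : q - q^2 * z ≠ 0)
    (u v : List ℂ) (h : Even (u.length + v.length)) :
    Psi (u ++ z :: 1 :: v) = tileP p u.length (Psi (u ++ 1 :: z :: v)) := by
  have h1 := Psi_exch u v 1 z h
  have hs := q_spec
  have hz : 1 + p * q = z * (1 + p * q^2) := by
    linear_combination z * hy - (1 + p * q) * hyz
  have e2 : q * z - q^2 = (q - q^2 * z) * (1 - p) := by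
    linear_combination hs * (z - 1) + hz
  have e3 : z - 1 = (q - q^2 * z) * p := by
    linear_combination -hz
  rw [mul_one, mul_one, e2, e3] at h1
  have h3 : Psi (u ++ z :: 1 :: v) = (q - q^2 * z)⁻¹ • ((q - q^2 * z) • Psi (u ++ z :: 1 :: v)) := by
    rw [smul_smul, inv_mul_cancel₀ hyq, one_smul]
  rw [h3, h1, smul_add, smul_smul, smul_smul, ← mul_assoc, ← mul_assoc, inv_mul_cancel₀ hyq,
    one_mul, one_mul]
  rfl

theorem fwdP_eq (p y : ℂ) (hy : y * (1 + p * q) = 1 + p * q^2) (hyq : q * y - q^2 ≠ 0) (x : ℂ)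
    (L : ℕ) (hL : Odd L) (k : ℕ) (hk : k ≤ L) :
    Psi (x :: List.replicate k 1 ++ y :: (List.replicate (L-k) 1 ++ [0])) =
      fwdP p k (Psi (x :: y :: (List.replicate L 1 ++ [0]))) := by
  induction k with
  | zero => simp [fwdP]
  | succ k ih =>
    have ih' := ih (by omega)
    simp only [fwdP]
    rw [← ih']
    obtain ⟨m, hm⟩ : ∃ m, L - k = m + 1 := ⟨L - k - 1, by omega⟩
    have hm' : L - (k+1) = m := by omega
    rw [hm, hm']
    have hu : (x :: List.replicate k (1:ℂ)).length = k + 1 := by simp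
    have key := move_rightP p y hy hyq (x :: List.replicate k (1:ℂ)) (List.replicate m 1 ++ [0]) (by
      simp only [List.length_cons, List.length_replicate, List.length_append, List.length_nil]
      obtain ⟨t, ht⟩ := hL
      exact ⟨t + 1, by omega⟩)
    rw [hu] at key
    have e1 : x :: List.replicate (k+1) (1:ℂ) ++ y :: (List.replicate m 1 ++ [0])
        = (x :: List.replicate k (1:ℂ)) ++ 1 :: y :: (List.replicate m 1 ++ [0]) := by
      rw [List.replicate_succ']; simp
    have e2 : x :: List.replicate k (1:ℂ) ++ y :: (List.replicate (m+1) 1 ++ [0])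
        = (x :: List.replicate k (1:ℂ)) ++ y :: 1 :: (List.replicate m 1 ++ [0]) := by
      rw [List.replicate_succ]; simp
    rw [e1, e2]
    exact key

theorem bwdP_eq (p y z : ℂ) (hy : y * (1 + p * q) = 1 + p * q^2) (hyz : y * z = 1)
    (hyq : q - q^2 * z ≠ 0) (x : ℂ) (L : ℕ) (hL : Odd L) (k : ℕ) (hk : k ≤ L) :
    bwdP p k (Psi (x :: List.replicate k 1 ++ z :: (List.replicate (L-k) 1 ++ [0]))) =
      Psi (x :: z :: (List.replicate L 1 ++ [0])) := by
  induction k with
  | zero => simp [bwdP]
  | succ k ih =>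
    have ih' := ih (by omega)
    simp only [bwdP]
    rw [← ih']
    obtain ⟨m, hm⟩ : ∃ m, L - k = m + 1 := ⟨L - k - 1, by omega⟩
    have hm' : L - (k+1) = m := by omega
    rw [hm, hm']
    have hu : (x :: List.replicate k (1:ℂ)).length = k + 1 := by simp
    have key := move_leftP p y z hy hyz hyq (x :: List.replicate k (1:ℂ))
      (List.replicate m 1 ++ [0]) (by
      simp only [List.length_cons, List.length_replicate, List.length_append, List.length_nil]
      obtain ⟨t, ht⟩ := hL
      exact ⟨t + 1, by omega⟩)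
    rw [hu] at key
    have e1 : x :: List.replicate (k+1) (1:ℂ) ++ z :: (List.replicate m 1 ++ [0])
        = (x :: List.replicate k (1:ℂ)) ++ 1 :: z :: (List.replicate m 1 ++ [0]) := by
      rw [List.replicate_succ']; simp
    have e2 : x :: List.replicate k (1:ℂ) ++ z :: (List.replicate (m+1) 1 ++ [0])
        = (x :: List.replicate k (1:ℂ)) ++ z :: 1 :: (List.replicate m 1 ++ [0]) := by
      rw [List.replicate_succ]; simp
    rw [e1, e2]
    rw [key]

theorem fac_rep (x : ℂ) (L : ℕ) :
    fac x (List.replicate L 1 ++ [0]) = ((x - q^2) * (x - q^2))^L * (x * (-q^2)) := by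
  unfold fac
  rw [List.map_append, List.prod_append, List.map_replicate, List.prod_replicate]
  simp

/-- the homogeneous vector is stationary for every anisotropic double row -/
theorem stationaryP (p : ℂ) (h1 : 1 + p * q ≠ 0) (h2 : 1 + p * q^2 ≠ 0) (L : ℕ) (hL : Odd L) :
    TvecP p L (Psi (List.replicate L 1 ++ [0])) = Psi (List.replicate L 1 ++ [0]) := by
  have hLe : Even (L + 1) := hL.add_one
  set v0 := Psi (List.replicate L 1 ++ [0]) with hv0
  set l0 : List ℂ := List.replicate L 1 ++ [0] with hl0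
  have hlen : l0.length = L + 1 := by simp [hl0]
  have h3 := q_cube
  have hqs := q_spec
  have hq := q_ne_zero
  have hq1 := q_ne_one
  set y : ℂ := (1 + p * q^2) / (1 + p * q) with hydef
  set z : ℂ := (1 + p * q) / (1 + p * q^2) with hzdef
  have hy : y * (1 + p * q) = 1 + p * q^2 := div_mul_cancel₀ _ h1
  have hyz : y * z = 1 := by rw [hydef, hzdef]; field_simp
  have hy0 : y ≠ 0 := left_ne_zero_of_mul_eq_one hyz
  have hz0 : z ≠ 0 := right_ne_zero_of_mul_eq_one hyz
  have hyinv : y⁻¹ = z := inv_eq_of_mul_eq_one_right hyz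
  have hzinv : z⁻¹ = y := by rw [← hyinv, inv_inv]
  -- nonvanishing
  have hyq : q * y - q^2 ≠ 0 := by
    intro h
    have h5 : q * (y - q) = 0 := by linear_combination h
    have h6 : y = q := by
      rcases mul_eq_zero.mp h5 with h6 | h6
      · exact absurd h6 hq
      · linear_combination h6
    rw [h6] at hy
    exact hq1 (by linear_combination hy)
  have hzq : q - q^2 * z ≠ 0 := by
    intro h
    apply hyq
    have : q * y - q^2 = y * (q - q^2 * z) := by linear_combination q^2 * hyz
    rw [this, h, mul_zero]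
  -- recursion at the start
  have hrec : Psi ((q * y) :: y :: l0) = fac (q * y) l0 • Finsupp.mapDomain (St.ins 0) v0 := by
    have := Psi_rec [] l0 (q * y) (by simpa [hlen] using hLe)
    have e : q^2 * (q * y) = y := by linear_combination y * h3
    rw [e] at this
    simpa using this
  -- forward
  have hf := fwdP_eq p y hy hyq (q * y) L hL L le_rfl
  rw [Nat.sub_self] at hf
  simp only [List.replicate_zero, List.nil_append] at hf
  -- inversion of the last nonzero variable
  have hinv : Psi ((q * y) :: List.replicate L 1 ++ [y, 0]) =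
      y^(L+1) • Psi ((q * y) :: List.replicate L 1 ++ [z, 0]) := by
    have := Psi_inv0 y ((q * y) :: List.replicate L 1) hy0 (by simpa using hLe)
    rw [hyinv] at this
    simpa using this
  have hb := bwdP_eq p y z hy hyz hzq (q * y) L hL L le_rfl
  rw [Nat.sub_self] at hb
  simp only [List.replicate_zero, List.nil_append] at hb
  -- inversion of the first variable
  have hinv1 : Psi ((q * y) :: z :: l0) = (q * y)^(L+1) • Psi ((q^2 * z) :: z :: l0) := by
    have := Psi_inv1 (q * y) (z :: l0) (mul_ne_zero hq hy0)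
      (by simp only [List.length_cons, hlen]; exact hLe.add_one)
    have e : (q * y)⁻¹ = q^2 * z := by
      rw [inv_eq_iff_eq_inv]
      have : (q^2 * z) ≠ 0 := mul_ne_zero (pow_ne_zero _ hq) hz0
      apply mul_right_cancel₀ this
      rw [inv_mul_cancel₀ this]
      linear_combination q^3 * hyz + h3
    rw [e] at this
    simpa [hlen] using this
  -- exchange
  have hexch : Psi (z :: (q^2 * z) :: l0) =
      Finsupp.mapDomain (St.act 0) (Psi ((q^2 * z) :: z :: l0)) := by
    have := Psi_exch [] l0 (q^2 * z) z (by simpa [hlen] using hLe)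
    have e1 : q * (q^2 * z) - q^2 * z = z - q^2 * z := by linear_combination z * h3
    have e2 : q * z - q^2 * (q^2 * z) = 0 := by linear_combination (-q * z) * h3
    rw [e1, e2, zero_smul, zero_add] at this
    have hne : z - q^2 * z ≠ 0 := by
      intro h
      have h1 : z * (1 - q^2) = 0 := by linear_combination h
      rcases mul_eq_zero.mp h1 with h2 | h2
      · exact hz0 h2
      · exact q_sq_ne_one (by linear_combination -h2)
    have h5 := congrArg (fun f => (z - q^2 * z)⁻¹ • f) this
    simp only [smul_smul, inv_mul_cancel₀ hne, one_smul] at h5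
    simpa using h5
  have hrec2 : Psi (z :: (q^2 * z) :: l0) = fac z l0 • Finsupp.mapDomain (St.ins 0) v0 := by
    have := Psi_rec [] l0 z (by simpa [hlen] using hLe)
    simpa using this
  -- cancel ins 0
  have hact : ∀ g : St →₀ ℂ, Finsupp.mapDomain (St.act 0) g =
      Finsupp.mapDomain (St.ins 0) (Finsupp.mapDomain (St.cap 0) g) := by
    intro g
    rw [← Finsupp.mapDomain_comp]
    congr 1
    funext R
    exact St.act_eq 0 R
  have hcap : Finsupp.mapDomain (St.cap 0) (Psi ((q^2 * z) :: z :: l0)) = fac z l0 • v0 := by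
    apply Finsupp.mapDomain_injective (St.ins_inj 0)
    rw [← hact, ← hexch, hrec2, T20.mapDomain_lin]
  -- the scalar
  have hfac : y^(L+1) * ((q * y)^(L+1) * fac z l0) = fac (q * y) l0 := by
    rw [hl0, fac_rep, fac_rep]
    have e1 : q * y - q^2 = (-q^2 * y) * (z - q^2) := by
      linear_combination (-q * y) * h3 + q^2 * hyz
    rw [e1]
    have e2 : (-q ^ 2 * y * (z - q ^ 2) * (-q ^ 2 * y * (z - q ^ 2)))^L =
        (q^4 * y^2)^L * ((z - q^2) * (z - q^2))^L := by
      rw [← mul_pow]
      congr 1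
      ring
    have e3 : (q^4 * y^2)^L = q^L * (y^L * y^L) := by
      have : q^4 * y^2 = q * (y * y) := by linear_combination (q * y^2) * h3
      rw [this, mul_pow, mul_pow]
    rw [e2, e3, mul_pow]
    have e4 : y^(L+1) * (q^(L+1) * y^(L+1) * (((z - q^2) * (z - q^2))^L * (z * -q^2)))
        = (y^L * y^L) * q^L * ((z - q^2) * (z - q^2))^L * (-(q^3) * y * (y * z)) := by
      ring
    rw [e4, hyz]
    ring
  -- conclusion
  have hmain : fac (q * y) l0 • TvecP p L v0 = fac (q * y) l0 • v0 := by
    rw [← TvecP_smul]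
    unfold TvecP
    rw [T20.mapDomain_lin, ← hrec]
    rw [← hf]
    have e1 : (q * y) :: List.replicate L (1:ℂ) ++ y :: [0] =
      (q * y) :: List.replicate L 1 ++ [y, 0] := rfl
    rw [e1, hinv, bwdP_smul]
    have e2 : (q * y) :: List.replicate L (1:ℂ) ++ [z, 0] =
      (q * y) :: List.replicate L 1 ++ z :: [0] := rfl
    rw [e2, hb, hinv1, smul_smul, T20.mapDomain_lin, hcap, smul_smul, mul_assoc, hfac]
  have hne : fac (q * y) l0 ≠ 0 := by
    rw [hl0, fac_rep]
    refine mul_ne_zero (pow_ne_zero _ (mul_ne_zero hyq hyq)) ?_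
    exact mul_ne_zero (mul_ne_zero hq hy0) (neg_ne_zero.mpr (pow_ne_zero _ hq))
  have h5 := congrArg (fun f => (fac (q * y) l0)⁻¹ • f) hmain
  simp only [smul_smul, inv_mul_cancel₀ hne, one_smul] at h5
  exact h5

end Pool.Agent.Run7.h729.Lay
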