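import Pool.Agent.Run7.h729.Lay.Dob
import Pool.Agent.Run7.h729.Lay.Meas
import Pool.Agent.H980R3.Slit.All

/-! Universality over the layered environments (coordinates of the slit strip project). -/

namespace Pool.Agent.Run7.h729.Lay

open Pool.Agent.H988R2.Perc Pool.Agent.H980R3.Slit Finset MeasureTheory ProbabilityTheory
open Filter Topology

/-! ### the stationary vector -/

theorem q_im : q.im = Real.sqrt 3 / 2 := rfl

theorem sqrt3_pos : (0:ℝ) < Real.sqrt 3 / 2 := by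
  have : (0:ℝ) < Real.sqrt 3 := Real.sqrt_pos.mpr (by norm_num)
  linarith

theorem one_add_ne (p : ℝ) : 1 + (p : ℂ) * q ≠ 0 := by
  intro h
  have him := congrArg Complex.im h
  simp only [Complex.add_im, Complex.one_im, Complex.mul_im, Complex.ofReal_re, Complex.ofReal_im,
    zero_mul, add_zero, zero_add, Complex.zero_im, q_im] at him
  have hp : p = 0 := by
    rcases mul_eq_zero.mp him with h1 | h1
    · exact h1
    · exact absurd h1 sqrt3_pos.ne'
  rw [hp] at h
  simp at h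

theorem one_add_ne' (p : ℝ) : 1 + (p : ℂ) * q^2 ≠ 0 := by
  intro h
  have e : q^2 = -1 - q := by linear_combination q_spec
  rw [e] at h
  have him := congrArg Complex.im h
  simp only [Complex.add_im, Complex.one_im, Complex.mul_im, Complex.ofReal_re, Complex.ofReal_im,
    zero_mul, add_zero, zero_add, Complex.zero_im, Complex.sub_im, Complex.neg_im, q_im,
    neg_zero, zero_sub, mul_neg, neg_eq_zero] at him
  have hp : p = 0 := by
    rcases mul_eq_zero.mp him with h1 | h1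
    · exact h1
    · exact absurd h1 sqrt3_pos.ne'
  rw [hp] at h
  simp at h

theorem psi1_fix (p : ℝ) (L : ℕ) (hL : Odd L) : TvecP (p : ℂ) L (psi1 L) = psi1 L :=
  stationaryP (p : ℂ) (one_add_ne p) (one_add_ne' p) L hL

theorem psi1_bd (L : ℕ) (hL : Odd L) : T24.BdV (L+1) (psi1 L) := by
  intro R hR a b hab
  have hlen : (List.replicate L (1:ℂ) ++ [0]).length = L + 1 := by simp
  have := Psi_supp (List.replicate L 1 ++ [0]) (by rw [hlen]; exact hL.add_one) R hR a b hab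
  rw [hlen] at this
  exact this

/-- the law tends to the normalised stationary vector -/
theorem law_psi1 {ε : ℝ} (h0 : 0 < ε) (h1 : ε ≤ 1) {L : ℕ} (hL : Odd L) (π : ℕ → ℕ → ℝ)
    (hπ : ∀ M m, 0 ≤ π M m ∧ π M m ≤ 1) (hc : Tendsto (fun M => cnt ε (π M) M) atTop atTop) :
    Tendsto (fun M => T24.nrm (lawP (fun m => (π M m : ℂ)) L M +
      (-1 : ℂ) • ((mass (psi1 L))⁻¹ • psi1 L))) atTop (𝓝 0) :=
  law_tendsto h0 h1 hL π hπ (psi1 L) (fun M m => psi1_fix (π M m) L hL) (psi1_bd L hL)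
    (psi1_mass_ne L hL) hc

/-! ### counting the elliptic layers -/

open Classical in
theorem cnt_eq (ε : ℝ) (π : ℕ → ℝ) (M : ℕ) :
    cnt ε π M = ∑ m ∈ range M, if ε ≤ π m ∧ π m ≤ 1 - ε then 1 else 0 := by
  induction M with
  | zero => rfl
  | succ M ih => rw [cnt, ih, Finset.sum_range_succ]

theorem sum_tendsto (f : ℕ → ℕ) (hf : ∀ N, ∃ n, N ≤ n ∧ 1 ≤ f n) :
    Tendsto (fun M => ∑ m ∈ range M, f m) atTop atTop := by
  have hmono : Monotone (fun M => ∑ m ∈ range M, f m) := by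
    intro M M' h
    exact Finset.sum_le_sum_of_subset (Finset.range_subset_range.mpr h)
  apply tendsto_atTop_atTop_of_monotone hmono
  intro B
  induction B with
  | zero => exact ⟨0, Nat.zero_le _⟩
  | succ B ih =>
    obtain ⟨M, hM⟩ := ih
    obtain ⟨n, h1, h2⟩ := hf M
    refine ⟨n + 1, ?_⟩
    rw [Finset.sum_range_succ]
    have h3 := hmono h1
    simp only at h3
    omega

/-- layered environments with infinitely many uniformly elliptic layers in both directions -/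
def Ell (P : ℤ → unitInterval) (ε : ℝ) : Prop :=
  (∀ N : ℤ, ∃ j, N ≤ j ∧ ε ≤ P j ∧ (P j : ℝ) ≤ 1 - ε) ∧
  (∀ N : ℤ, ∃ j, j ≤ N ∧ ε ≤ P j ∧ (P j : ℝ) ≤ 1 - ε)

/-- environment of the past window -/
noncomputable def πP (P : ℤ → unitInterval) (M m : ℕ) : ℝ := P ((m : ℤ) - M)
/-- environment of the future window -/
noncomputable def πF (P : ℤ → unitInterval) (M m : ℕ) : ℝ := P ((M : ℤ) - 1 - m)

theorem cnt_past {P : ℤ → unitInterval} {ε : ℝ} (h : Ell P ε) :
    Tendsto (fun M => cnt ε (πP P M) M) atTop atTop := by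
  classical
  have e : ∀ M, cnt ε (πP P M) M =
      ∑ m ∈ range M, if ε ≤ (P (-1 - (m : ℤ)) : ℝ) ∧ (P (-1 - (m : ℤ)) : ℝ) ≤ 1 - ε then 1 else 0 := by
    intro M
    rw [cnt_eq, ← Finset.sum_range_reflect]
    refine Finset.sum_congr rfl fun m hm => ?_
    have hm' := Finset.mem_range.mp hm
    have : ((M - 1 - m : ℕ) : ℤ) - M = -1 - m := by omega
    simp only [πP, this]
  simp only [e]
  apply sum_tendsto
  intro N
  obtain ⟨j, h1, h2, h3⟩ := h.2 (-1 - (N : ℤ))
  refine ⟨(-1 - j).toNat, by omega, ?_⟩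
  have : -1 - (((-1 - j).toNat : ℕ) : ℤ) = j := by omega
  rw [this, if_pos ⟨h2, h3⟩]

theorem cnt_fut {P : ℤ → unitInterval} {ε : ℝ} (h : Ell P ε) :
    Tendsto (fun M => cnt ε (πF P M) M) atTop atTop := by
  classical
  have e : ∀ M, cnt ε (πF P M) M =
      ∑ m ∈ range M, if ε ≤ (P (m : ℤ) : ℝ) ∧ (P (m : ℤ) : ℝ) ≤ 1 - ε then 1 else 0 := by
    intro M
    rw [cnt_eq, ← Finset.sum_range_reflect]
    refine Finset.sum_congr rfl fun m hm => ?_
    have hm' := Finset.mem_range.mp hm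
    have : (M : ℤ) - 1 - ((M - 1 - m : ℕ) : ℤ) = m := by omega
    simp only [πF, this]
  simp only [e]
  apply sum_tendsto
  intro N
  obtain ⟨j, h1, h2, h3⟩ := h.1 (N : ℤ)
  refine ⟨j.toNat, by omega, ?_⟩
  have : ((j.toNat : ℕ) : ℤ) = j := by omega
  rw [this, if_pos ⟨h2, h3⟩]

/-! ### the layered edge probabilities (time of the edge at `(u,v)`: `u + v - 1`) -/

/-- layered environment, coordinates of the project -/
noncomputable def pr0 (P : ℤ → unitInterval) (e : Edge) : unitInterval :=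
  if ((e.1 + e.2.1 - 1) % 2 = 0 ↔ e.2.2 = true) then P ((e.1 + e.2.1 - 1) / 2)
    else unitInterval.symm (P ((e.1 + e.2.1 - 1) / 2))

theorem pr0_edgeOf (P : ℤ → unitInterval) (i r : ℤ) :
    (pr0 P (edgeOf i r) : ℝ) = if i % 2 = 1 then (P (r / 2) : ℝ) else 1 - P (r / 2) := by
  unfold edgeOf
  split_ifs with h1 h2 h2
  · have e : (i + r + 1) / 2 + (r + 1 - i) / 2 - 1 = r := by omega
    have e2 : r % 2 = 0 := by omega
    simp only [pr0, e]
    rw [if_pos (by simp [e2])]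
  · have e : (i + r + 1) / 2 + (r + 1 - i) / 2 - 1 = r := by omega
    have e2 : ¬ r % 2 = 0 := by omega
    simp only [pr0, e]
    rw [if_neg (by simp [e2])]
    rfl
  · have e : (i + r) / 2 + (r + 2 - i) / 2 - 1 = r := by omega
    have e2 : ¬ r % 2 = 0 := by omega
    simp only [pr0, e]
    rw [if_pos (by simp [e2])]
  · have e : (i + r) / 2 + (r + 2 - i) / 2 - 1 = r := by omega
    have e2 : r % 2 = 0 := by omega
    simp only [pr0, e]
    rw [if_neg (by simp [e2])]
    rfl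

theorem lawPast (P : ℤ → unitInterval) (L M : ℕ) :
    WS (θP (pr0 P) M) (T23.SS L M) (fun t => X L (actBit (T23.bits t)) M) =
      lawP (fun m => (πP P M m : ℂ)) L M := by
  refine (lawP_eq _ _ (fun k i => ?_) L M).symm
  unfold θP T23.eP πP
  rw [pr0_edgeOf]
  have e : ((k : ℤ) - 2 * M) / 2 = ((k / 2 : ℕ) : ℤ) - M := by omega
  simp only [e]
  have e2 : ((i : ℤ) % 2 = 1) ↔ i % 2 = 1 := by omega
  simp only [e2]

theorem lawFut (P : ℤ → unitInterval) (L M : ℕ) :
    WS (θF (pr0 P) M) (T23.SS L M) (fun t => X L (actBit (T23.bits t)) M) =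
      lawP (fun m => (πF P M m : ℂ)) L M := by
  refine (lawP_eq _ _ (fun k i => ?_) L M).symm
  unfold θF T23.eF πF
  rw [pr0_edgeOf]
  have e : (2 * (M : ℤ) - 1 - k) / 2 = (M : ℤ) - 1 - ((k / 2 : ℕ) : ℤ) := by omega
  simp only [e]
  have e2 : ((i : ℤ) % 2 = 1) ↔ i % 2 = 1 := by omega
  simp only [e2]

theorem lawFutR (P : ℤ → unitInterval) {a : ℕ} (ha : Odd a) (L M : ℕ) :
    WS (θR (pr0 P) a M) (T23.SS L M) (fun t => X L (actBit (T23.bits t)) M) =
      lawP (fun m => (πF P M m : ℂ)) L M := by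
  refine (lawP_eq _ _ (fun k i => ?_) L M).symm
  unfold θR C08.eR πF
  rw [pr0_edgeOf]
  have e : (2 * (M : ℤ) - 1 - k) / 2 = (M : ℤ) - 1 - ((k / 2 : ℕ) : ℤ) := by omega
  simp only [e]
  have ha' := Nat.odd_iff.mp ha
  have e2 : (((i : ℤ) + (a + 1)) % 2 = 1) ↔ i % 2 = 1 := by omega
  simp only [e2]

/-! ### the two universality theorems -/

theorem unit_pos (p : unitInterval) : 0 ≤ (p : ℝ) ∧ (p : ℝ) ≤ 1 := p.2

/-- **universality of the slit strip crossings** -/
theorem slit_univ (h4 : S_C04) (h5 : S_C05) (h6 : S_C06) (h7 : S_C07) (h11 : S_C11)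
    (h13 : S_C13) (hfin : S_final) {P : ℤ → unitInterval} {ε : ℝ} (h0 : 0 < ε) (hP : Ell P ε)
    {a b : ℕ} (ha : Odd a) (hb : Odd b) :
    (indep (pr0 P)).real (SlitCross a b) = perc.real (SlitCross a b) := by
  have h1 : ε ≤ 1 := by
    obtain ⟨j, _, h2, h3⟩ := hP.1 0
    linarith [(P j).2.2]
  have hL : Odd (a + b + 1) := (ha.add_odd hb).add_one
  have e1 : Tendsto (fun M => (indep (pr0 P)).real (WinS a b M)) atTop
      (𝓝 ((indep (pr0 P)).real (SlitCross a b))) := by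
    have h1 : Tendsto (fun M => indep (pr0 P) (WinS a b M)) atTop
        (𝓝 (indep (pr0 P) (⋃ M, WinS a b M))) :=
      tendsto_measure_iUnion_atTop (winS_mono h4 h5 ha hb)
    rw [iUnion_winS h4 h5 h6 h7 ha hb] at h1
    exact (ENNReal.tendsto_toReal (measure_ne_top (indep (pr0 P)) (SlitCross a b))).comp h1
  have e2 : Tendsto (fun M => (((indep (pr0 P)).real (WinS a b M) : ℝ) : ℂ)) atTop
      (𝓝 (((indep (pr0 P)).real (SlitCross a b) : ℝ) : ℂ)) :=
    (Complex.continuous_ofReal.tendsto _).comp e1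
  have e3 := h13 a b (fun M => lawP (fun m => (πP P M m : ℂ)) (a+b+1) M)
    (fun M => lawP (fun m => (πF P M m : ℂ)) a M) (fun M => lawP (fun m => (πF P M m : ℂ)) b M)
    _ _ _
    (law_psi1 h0 h1 hL (πP P) (fun M m => unit_pos _) (cnt_past hP))
    (law_psi1 h0 h1 ha (πF P) (fun M m => unit_pos _) (cnt_fut hP))
    (law_psi1 h0 h1 hb (πF P) (fun M m => unit_pos _) (cnt_fut hP))
  have e4 : Tendsto (fun M => (((indep (pr0 P)).real (WinS a b M) : ℝ) : ℂ)) atTop
      (𝓝 (pair3 a b ((mass (psi1 (a+b+1)))⁻¹ • psi1 (a+b+1)) ((mass (psi1 a))⁻¹ • psi1 a)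
        ((mass (psi1 b))⁻¹ • psi1 b))) := by
    refine e3.congr fun M => ?_
    rw [winS_prob, lawPast, lawFut, lawFutR P ha]
  have e5 := tendsto_nhds_unique e2 e4
  have e6 := hfin a b ha hb
  obtain ⟨_, _, _, s1, s2, s3, _⟩ := h11
  rw [s1, s2, s3] at e5
  have n0 := psi1_mass_ne _ hL
  have n1 := psi1_mass_ne a ha
  have n2 := psi1_mass_ne b hb
  have e7 : (((indep (pr0 P)).real (SlitCross a b) : ℝ) : ℂ) =
      ((perc.real (SlitCross a b) : ℝ) : ℂ) := by
    rw [e5, e6]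
    field_simp
  exact_mod_cast e7

end Pool.Agent.Run7.h729.Lay
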